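import Pool.Agent.V11234.AH.Final

/-!
# Automatic homeomorphicity of the clones of reducts of pure equality (MP_0c3240_lc, Q1)

Every clone isomorphism from the polymorphism clone of a structure first-order definable in
`(ℕ, =)` onto a closed clone is a homeomorphism.
-/

namespace Pool.Agent.Results.MP_0c3240_lc.AutoHomeo

open Equiv

/-- The operations on `ℕ` of arity `n + 1`, with the product topology (`ℕ` discrete). -/
abbrev Op (n : ℕ) : Type := (Fin (n + 1) → ℕ) → ℕ

/-- The space of all finitary operations (of positive arity), with the sum topology. -/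
abbrev AllOps : Type := Σ n : ℕ, Op n

/-- A clone on `ℕ`: a set of operations containing the projections and closed under
composition. -/
structure Clone where
  ops : ∀ n : ℕ, Set (Op n)
  proj_mem : ∀ (n : ℕ) (i : Fin (n + 1)), (fun x => x i : Op n) ∈ ops n
  comp_mem : ∀ (n m : ℕ) (f : Op n) (g : Fin (n + 1) → Op m), f ∈ ops n → (∀ i, g i ∈ ops m) →
    (fun x => f (fun i => g i x) : Op m) ∈ ops m

/-- The clone as a subset of the space of all operations. -/
def Clone.carrier (C : Clone) : Set AllOps := {p | p.2 ∈ C.ops p.1}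

/-- The clone is topologically closed. -/
def Clone.Closed (C : Clone) : Prop := IsClosed C.carrier

/-- Clone isomorphisms: arity preserving bijections sending projections to projections and
commuting with composition. -/
structure CloneIso (C D : Clone) where
  toEquiv : ∀ n : ℕ, C.ops n ≃ D.ops n
  map_proj : ∀ (n : ℕ) (i : Fin (n + 1)),
    toEquiv n ⟨fun x => x i, C.proj_mem n i⟩ = ⟨fun x => x i, D.proj_mem n i⟩
  map_comp : ∀ (n m : ℕ) (f : C.ops n) (g : Fin (n + 1) → C.ops m),
    (toEquiv m ⟨fun x => f.1 (fun i => (g i).1 x),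
      C.comp_mem n m f.1 (fun i => (g i).1) f.2 (fun i => (g i).2)⟩ : Op m) =
      fun x => (toEquiv n f : Op n) (fun i => (toEquiv m (g i) : Op m) x)

/-- A clone isomorphism as a map between the two clones, subspaces of the space of all
operations. -/
def CloneIso.toFun {C D : Clone} (ξ : CloneIso C D) : C.carrier → D.carrier :=
  fun p => ⟨⟨p.1.1, ξ.toEquiv p.1.1 ⟨p.1.2, p.2⟩⟩, (ξ.toEquiv p.1.1 ⟨p.1.2, p.2⟩).2⟩

/-- Automatic homeomorphicity with respect to the class of closed clones. -/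
def AutomaticHomeomorphicity (C : Clone) : Prop :=
  ∀ D : Clone, D.Closed → ∀ ξ : CloneIso C D, IsHomeomorph ξ.toFun

/-- The polymorphism clone of the relational structure on `ℕ` with relations `R i` of arity
`k i`. -/
def Pol {I : Type} (k : I → ℕ) (R : ∀ i, Set (Fin (k i) → ℕ)) : Clone where
  ops n := {f | ∀ i, ∀ t : Fin (n + 1) → Fin (k i) → ℕ, (∀ j, t j ∈ R i) →
    (fun l => f (fun j => t j l)) ∈ R i}
  proj_mem _ i := fun _ _ ht => ht i
  comp_mem _ _ _ g hf hg := fun i t ht =>
    hf i (fun j l => g j (fun j' => t j' l)) (fun j => hg j i t ht)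

attribute [local instance] FirstOrder.Language.emptyStructure

/-- Every relation is definable, without parameters, by a first-order formula in the language of
pure equality. -/
def DefinableFromEquality {I : Type} (k : I → ℕ) (R : ∀ i, Set (Fin (k i) → ℕ)) : Prop :=
  ∀ i, ∃ φ : FirstOrder.Language.empty.Formula (Fin (k i)),
    ∀ t : Fin (k i) → ℕ, t ∈ R i ↔ φ.Realize t

open Pool.Agent.V11234.AH in
theorem closed_ops {C : Clone} (hC : C.Closed) (n : ℕ) (f : Op n)
    (h : ∀ B : Finset (Fin (n + 1) → ℕ), ∃ f' ∈ C.ops n, ∀ b ∈ B, f' b = f b) : f ∈ C.ops n := by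
  have h1 : IsClosed (C.ops n) := by
    have := isClosed_sigma_iff.1 hC n
    exact this
  rw [← h1.closure_eq, mem_closure_iff_nhds]
  intro V hV
  rw [nhds_pi, Filter.mem_pi] at hV
  obtain ⟨I, hI, t, ht, hsub⟩ := hV
  obtain ⟨f', hf', hB⟩ := h hI.toFinset
  refine ⟨f', hsub ?_, hf'⟩
  intro x hx
  have := hB x (by rwa [Set.Finite.mem_toFinset])
  rw [this]
  exact mem_of_mem_nhds (ht x)

/-- the total extension of a clone isomorphism -/
noncomputable def ext {C D : Clone} (ξ : CloneIso C D) (n : ℕ) (f : Op n) : Op n := by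
  classical
  exact if h : f ∈ C.ops n then (ξ.toEquiv n ⟨f, h⟩ : Op n) else f

theorem ext_eq {C D : Clone} (ξ : CloneIso C D) {n : ℕ} {f : Op n} (h : f ∈ C.ops n) :
    ext ξ n f = (ξ.toEquiv n ⟨f, h⟩ : Op n) := by
  unfold ext
  rw [dif_pos h]

theorem setup {C D : Clone} (hC : C.Closed) (hD : D.Closed)
    (hG : ∀ g : Perm ℕ, (fun x => g (x 0) : Op 0) ∈ C.ops 0) (ξ : CloneIso C D) :
    Pool.Agent.V11234.AH.Setup C.ops D.ops (ext ξ) where
  projC := C.proj_mem
  compC := C.comp_mem
  permC := hG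
  closedC := closed_ops hC
  closedD := closed_ops hD
  maps n f hf := by rw [ext_eq ξ hf]; exact (ξ.toEquiv n ⟨f, hf⟩).2
  surj n h hh := by
    refine ⟨(ξ.toEquiv n).symm ⟨h, hh⟩, ((ξ.toEquiv n).symm ⟨h, hh⟩).2, ?_⟩
    rw [ext_eq ξ ((ξ.toEquiv n).symm ⟨h, hh⟩).2]
    simp
  inj n f f' hf hf' h := by
    rw [ext_eq ξ hf, ext_eq ξ hf'] at h
    have := (ξ.toEquiv n).injective (Subtype.ext h)
    exact congrArg Subtype.val this
  Xproj n i := by
    rw [ext_eq ξ (C.proj_mem n i)]
    exact congrArg Subtype.val (ξ.map_proj n i)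
  Xcomp n m f g hf hg := by
    rw [ext_eq ξ (C.comp_mem n m f g hf hg), ξ.map_comp n m ⟨f, hf⟩ (fun i => ⟨g i, hg i⟩),
      ext_eq ξ hf]
    have h1 : ∀ i, ext ξ m (g i) = (ξ.toEquiv m ⟨g i, hg i⟩ : Op m) := fun i => ext_eq ξ (hg i)
    simp only [h1]

theorem continuous_of_local {C D : Clone} (T : ∀ n, C.ops n → D.ops n)
    (hT : ∀ n (f : C.ops n) (p : Fin (n + 1) → ℕ), ∃ B : Finset (Fin (n + 1) → ℕ),
      ∀ f' : C.ops n, (∀ b ∈ B, f'.1 b = f.1 b) → (T n f').1 p = (T n f).1 p) :
    Continuous (fun p : C.carrier =>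
      (⟨⟨p.1.1, (T p.1.1 ⟨p.1.2, p.2⟩ : Op p.1.1)⟩, (T p.1.1 ⟨p.1.2, p.2⟩).2⟩ : D.carrier)) := by
  rw [continuous_induced_rng, continuous_def]
  intro V hV
  rw [isOpen_sigma_iff] at hV
  rw [isOpen_induced_iff]
  refine ⟨{q | ∃ B : Finset (Fin (q.1 + 1) → ℕ), ∀ f' : C.ops q.1,
    (∀ b ∈ B, f'.1 b = q.2 b) → (⟨q.1, (T q.1 f' : Op q.1)⟩ : AllOps) ∈ V}, ?_, ?_⟩
  · rw [isOpen_sigma_iff]
    intro n
    rw [isOpen_iff_mem_nhds]
    rintro f ⟨B, hB⟩
    have h1 : {f' : Op n | ∀ b ∈ B, f' b = f b} ∈ nhds f := by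
      have h2 : IsOpen {f' : Op n | ∀ b ∈ B, f' b = f b} := by
        have : {f' : Op n | ∀ b ∈ B, f' b = f b} = ⋂ b ∈ B, {f' : Op n | f' b = f b} := by
          ext f'; simp
        rw [this]
        refine B.finite_toSet.isOpen_biInter ?_
        intro b _
        exact (isOpen_discrete ({f b} : Set ℕ)).preimage
          (continuous_apply b : Continuous fun f' : Op n => f' b)
      exact h2.mem_nhds (fun b _ => rfl)
    filter_upwards [h1] with f' hf'
    refine ⟨B, fun f'' hf'' => hB f'' (fun b hb => ?_)⟩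
    rw [hf'' b hb]
    exact hf' b hb
  · ext ⟨⟨n, f⟩, hf⟩
    constructor
    · rintro ⟨B, hB⟩
      exact hB ⟨f, hf⟩ (fun b _ => rfl)
    · intro h
      have h' : (T n ⟨f, hf⟩ : Op n) ∈ Sigma.mk n ⁻¹' V := h
      have h1 := (hV n).mem_nhds h'
      rw [nhds_pi, Filter.mem_pi] at h1
      obtain ⟨I, hI, t, ht, hsub⟩ := h1
      choose B hB using fun p => hT n ⟨f, hf⟩ p
      classical
      refine ⟨hI.toFinset.biUnion B, fun f' hf' => ?_⟩
      have : (T n f' : Op n) ∈ Sigma.mk n ⁻¹' V := by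
        apply hsub
        intro x hx
        rw [hB x f' (fun b hb => hf' b (Finset.mem_biUnion.2
          ⟨x, by rwa [Set.Finite.mem_toFinset], hb⟩))]
        exact mem_of_mem_nhds (ht x)
      exact this

theorem isHomeomorph {C D : Clone} (hC : C.Closed) (hD : D.Closed)
    (hG : ∀ g : Perm ℕ, (fun x => g (x 0) : Op 0) ∈ C.ops 0) (ξ : CloneIso C D) :
    IsHomeomorph ξ.toFun := by
  have S := setup hC hD hG ξ
  let e : C.carrier ≃ₜ D.carrier :=
    { toFun := ξ.toFun
      invFun := fun p => ⟨⟨p.1.1, ((ξ.toEquiv p.1.1).symm ⟨p.1.2, p.2⟩ : C.ops p.1.1).1⟩,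
        ((ξ.toEquiv p.1.1).symm ⟨p.1.2, p.2⟩).2⟩
      left_inv := by
        rintro ⟨⟨n, f⟩, hf⟩
        apply Subtype.ext
        show (⟨n, ((ξ.toEquiv n).symm (ξ.toEquiv n ⟨f, hf⟩) : C.ops n).1⟩ : AllOps) = ⟨n, f⟩
        rw [Equiv.symm_apply_apply]
      right_inv := by
        rintro ⟨⟨n, f⟩, hf⟩
        apply Subtype.ext
        show (⟨n, (ξ.toEquiv n ((ξ.toEquiv n).symm ⟨f, hf⟩) : D.ops n).1⟩ : AllOps) = ⟨n, f⟩
        rw [Equiv.apply_symm_apply]
      continuous_toFun := by
        apply continuous_of_local (fun n => ξ.toEquiv n)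
        intro n f p
        obtain ⟨B, hB⟩ := S.continuous f.2 p
        refine ⟨B, fun f' hf' => ?_⟩
        have := hB f'.1 f'.2 hf'
        rw [ext_eq ξ f'.2, ext_eq ξ f.2] at this
        exact this
      continuous_invFun := by
        apply continuous_of_local (C := D) (D := C) (fun n => (ξ.toEquiv n).symm)
        intro n f b
        obtain ⟨Y, hY⟩ := S.inv_continuous ((ξ.toEquiv n).symm f).2 b
        refine ⟨Y, fun f' hf' => ?_⟩
        apply hY _ ((ξ.toEquiv n).symm f').2
        intro y hy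
        rw [ext_eq ξ ((ξ.toEquiv n).symm f').2, ext_eq ξ ((ξ.toEquiv n).symm f).2]
        simpa using hf' y hy }
  exact e.isHomeomorph

theorem pol_closed {I : Type} (k : I → ℕ) (R : ∀ i, Set (Fin (k i) → ℕ)) : (Pol k R).Closed := by
  show IsClosed (Pol k R).carrier
  rw [isClosed_sigma_iff]
  intro n
  have : Sigma.mk n ⁻¹' (Pol k R).carrier = ⋂ i, ⋂ t : Fin (n + 1) → Fin (k i) → ℕ,
      ⋂ _ : ∀ j, t j ∈ R i, {f : Op n | (fun l => f (fun j => t j l)) ∈ R i} := by
    ext f
    simp only [Set.mem_preimage, Set.mem_iInter, Set.mem_ofPred_eq, Clone.carrier, Pol]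
  rw [this]
  refine isClosed_iInter fun i => isClosed_iInter fun t => isClosed_iInter fun _ => ?_
  have hcont : Continuous fun f : Op n => (fun l => f (fun j => t j l) : Fin (k i) → ℕ) :=
    continuous_pi fun l => continuous_apply _
  exact (isClosed_discrete (R i)).preimage hcont

theorem perm_mem_pol {I : Type} (k : I → ℕ) (R : ∀ i, Set (Fin (k i) → ℕ))
    (hR : DefinableFromEquality k R) (g : Perm ℕ) :
    (fun x => g (x 0) : Op 0) ∈ (Pol k R).ops 0 := by
  intro i t ht
  obtain ⟨φ, hφ⟩ := hR i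
  let e : FirstOrder.Language.Equiv FirstOrder.Language.empty ℕ ℕ :=
    { toEquiv := g
      map_fun' := by
        intro n f x
        exact f.elim
      map_rel' := by
        intro n r x
        exact r.elim }
  have h1 := (hφ _).1 (ht 0)
  rw [hφ]
  exact (FirstOrder.Language.StrongHomClass.realize_formula (g := e) φ (v := t 0)).2 h1

/-- **Theorem** (MP_0c3240_lc, Q1; the answer is yes). The polymorphism clone of every relational
structure on `ℕ` whose relations are first-order definable from equality is a closed clone with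
automatic homeomorphicity with respect to the class of all closed clones; more generally so is
every closed clone containing all permutations of `ℕ`. -/
theorem result :
    (∀ {I : Type} (k : I → ℕ) (R : ∀ i, Set (Fin (k i) → ℕ)), DefinableFromEquality k R →
      (Pol k R).Closed ∧ AutomaticHomeomorphicity (Pol k R)) ∧
    (∀ C : Clone, C.Closed → (∀ g : Perm ℕ, (fun x => g (x 0) : Op 0) ∈ C.ops 0) →
      AutomaticHomeomorphicity C) := by
  refine ⟨fun k R hR => ⟨pol_closed k R, fun D hD ξ => ?_⟩, fun C hC hG D hD ξ => ?_⟩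
  · exact isHomeomorph (pol_closed k R) hD (perm_mem_pol k R hR) ξ
  · exact isHomeomorph hC hD hG ξ

end Pool.Agent.Results.MP_0c3240_lc.AutoHomeo
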